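import Pool.Agent.V7H85.OK.Spec

set_option autoImplicit false

/-! Piece ALT of the proof for MP_1774d7_an: gluing two sign patterns. -/

namespace Pool.Agent.V7H87.OK

open Polynomial Finset Matrix
open Pool.Agent.V7H85.OK

/-- gluing of two sequences -/
def glue {α : Type*} (w : ℕ) (a b : ℕ → α) (i : ℕ) : α := if i < w then a i else b (i - w)

lemma chg_glue (w : ℕ) (hw : 1 ≤ w) (a b : ℕ → Bool) : chg w a + chg w b ≤ chg (2 * w) (glue w a b) := by
  classical
  unfold chg
  have hinj : Function.Injective (fun i : ℕ => i + w) := fun i j h => by simpa using h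
  rw [show ((range (w - 1)).filter fun i => b i ≠ b (i + 1)).card =
    (((range (w - 1)).filter fun i => b i ≠ b (i + 1)).map ⟨fun i : ℕ => i + w, hinj⟩).card from
      (card_map _).symm, ← card_union_of_disjoint]
  · apply card_le_card
    intro i hi
    rw [mem_union, mem_map] at hi
    rcases hi with hi | ⟨j, hj, rfl⟩
    · rw [mem_filter, mem_range] at hi ⊢
      refine ⟨by omega, ?_⟩
      unfold glue
      rw [if_pos (by omega), if_pos (by omega)]
      exact hi.2
    · rw [mem_filter, mem_range] at hj
      show j + w ∈ _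
      rw [mem_filter, mem_range]
      refine ⟨by omega, ?_⟩
      unfold glue
      rw [if_neg (by omega), if_neg (by omega), show j + w - w = j by omega, show j + w + 1 - w = j + 1 by omega]
      exact hj.2
  · rw [disjoint_left]
    intro i hi hi2
    rw [mem_map] at hi2
    obtain ⟨j, hj, rfl⟩ := hi2
    rw [mem_filter, mem_range] at hi hj
    have h1 : j + w < w - 1 := hi.1
    omega

lemma chg_flip (w : ℕ) (a b : ℕ → Bool) (h : ∀ i, i + 1 < w → (a i ≠ a (i + 1) ↔ ¬ b i ≠ b (i + 1))) :
    chg w a + chg w b = w - 1 := by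
  classical
  unfold chg
  have h1 : (range (w - 1)).filter (fun i => a i ≠ a (i + 1)) =
      (range (w - 1)).filter (fun i => ¬ b i ≠ b (i + 1)) := by
    apply filter_congr
    intro i hi
    rw [mem_range] at hi
    exact h i (by omega)
  rw [h1, add_comm, card_filter_add_card_filter_not, card_range]

theorem t_ALT : S_ALT := by
  intro hP w s t r d p x y hp hdeg hs ht hst hr hd hx hy c hc c' hc'
  obtain ⟨σ, hσ, rfl⟩ := hc
  obtain ⟨τ, hτ, rfl⟩ := hc'
  by_cases hw : w ≤ 1
  · have h1 : chg w σ = 0 := by
      unfold chg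
      rw [show w - 1 = 0 by omega]
      rfl
    omega
  push Not at hw
  have hd0 : ∀ i < w, d i ≠ 0 := by
    intro i hi h0
    rcases Nat.lt_or_ge (i + 1) w with h1 | h1
    · have := hd i h1
      rw [h0, zero_mul] at this
      exact lt_irrefl _ this
    · obtain ⟨j, rfl⟩ : ∃ j, i = j + 1 := ⟨i - 1, by omega⟩
      have := hd j hi
      rw [h0, mul_zero] at this
      exact lt_irrefl _ this
  obtain ⟨τ', hτ'⟩ : ∃ τ' : ℕ → Bool, τ' = fun i => if 0 < d i then τ i else !(τ i) := ⟨_, rfl⟩
  have hcomp1 : Comp w (fun i => p.eval (s i)) τ' := by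
    intro i hi
    have h1 := hτ i hi
    have h2 : Pool.Agent.V7H85.OK.ext y i = d i * p.eval (s i) := by
      unfold Pool.Agent.V7H85.OK.ext
      rw [dif_pos hi, hy]
    rw [h2] at h1
    rw [hτ']
    show ((if 0 < d i then τ i else !(τ i)) = true → 0 ≤ p.eval (s i)) ∧
      ((if 0 < d i then τ i else !(τ i)) = false → p.eval (s i) ≤ 0)
    by_cases h3 : 0 < d i
    · rw [if_pos h3]
      refine ⟨fun h => ?_, fun h => ?_⟩
      · exact nonneg_of_mul_nonneg_right (h1.1 h) h3
      · by_contra h4
        push Not at h4
        have := h1.2 h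
        have := mul_pos h3 h4
        linarith
    · rw [if_neg h3]
      have h4 : d i < 0 := lt_of_le_of_ne (not_lt.1 h3) (hd0 i hi)
      refine ⟨fun h => ?_, fun h => ?_⟩
      · have h5 : τ i = false := by simpa using h
        by_contra h6
        push Not at h6
        have := h1.2 h5
        have := mul_pos_of_neg_of_neg h4 h6
        linarith
      · have h5 : τ i = true := by simpa using h
        by_contra h6
        push Not at h6
        have := h1.1 h5
        have := mul_neg_of_neg_of_pos h4 h6
        linarith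
  have hcomp2 : Comp w (fun i => p.eval (t i)) σ := by
    intro i hi
    have h1 := hσ i hi
    have h2 : Pool.Agent.V7H85.OK.ext x i = r i * p.eval (t i) := by
      unfold Pool.Agent.V7H85.OK.ext
      rw [dif_pos hi, hx]
    rw [h2] at h1
    have h3 := hr i hi
    refine ⟨fun h => nonneg_of_mul_nonneg_right (h1.1 h) h3, fun h => ?_⟩
    by_contra h4
    push Not at h4
    have := h1.2 h
    have := mul_pos h3 h4
    linarith
  have hflip : chg w τ' + chg w τ = w - 1 := by
    apply chg_flip
    intro i hi
    have h1 := hd i hi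
    rw [hτ']
    show (if 0 < d i then τ i else !(τ i)) ≠ (if 0 < d (i + 1) then τ (i + 1) else !(τ (i + 1))) ↔ _
    by_cases h3 : 0 < d i
    · have h4 : ¬ 0 < d (i + 1) := fun h => by
        have := mul_pos h3 h
        linarith
      rw [if_pos h3, if_neg h4]
      cases τ i <;> cases τ (i + 1) <;> simp
    · have h4 : 0 < d (i + 1) := by
        have h5 : d i < 0 := lt_of_le_of_ne (not_lt.1 h3) (hd0 i (by omega))
        by_contra h6
        push Not at h6
        have := mul_nonneg_of_nonpos_of_nonpos h5.le h6
        linarith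
      rw [if_neg h3, if_pos h4]
      cases τ i <;> cases τ (i + 1) <;> simp
  have hglue := chg_glue w (by omega) τ' σ
  have hmain := hP (2 * w) (glue w s t) p (glue w τ' σ) hp ?_ ?_
  · omega
  · intro i j hij hj
    unfold glue
    by_cases h1 : i < w
    · rw [if_pos h1]
      by_cases h2 : j < w
      · rw [if_pos h2]
        exact hs i j hij h2
      · rw [if_neg h2]
        exact hst i (j - w) h1 (by omega)
    · rw [if_neg h1, if_neg (by omega)]
      exact ht (i - w) (j - w) (by omega) (by omega)
  · intro i hi
    show (glue w τ' σ i = true → 0 ≤ p.eval (glue w s t i)) ∧ (glue w τ' σ i = false → p.eval (glue w s t i) ≤ 0)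
    unfold glue
    by_cases h1 : i < w
    · rw [if_pos h1, if_pos h1]
      exact hcomp1 i h1
    · rw [if_neg h1, if_neg h1]
      exact hcomp2 (i - w) (by omega)

end Pool.Agent.V7H87.OK
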